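import Pool.Agent.H654R2.VWMain

/-!
The lightface version of the Velickovic-Woodin theorem fails: there are a real `y`, a
`Σ¹₁(y)` set `A` of reals and a real `γ` such that some `x ∈ A` has
`ω₁^{CK(x)} > ω₁^{CK(y)}`, while `γ` is not hyperarithmetic in the join of any four elements
of `A`.
-/

open Pool.Agent.H654R2 in
/-- The negated form of the question: the lightface version is false. -/
theorem Pool.Agent.Results.MP_120e55_lc.LightfaceJoinFails.result :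
    ∃ (y : ℕ → Bool) (A : Set (ℕ → Bool)) (γ : ℕ → Bool), IsSigma11Set y A ∧
      (∃ x ∈ A, omega1CK y < omega1CK x) ∧
      ∀ x₀ ∈ A, ∀ x₁ ∈ A, ∀ x₂ ∈ A, ∀ x₃ ∈ A, ¬ HypIn γ (join4 x₀ x₁ x₂ x₃) := by
  obtain ⟨y, x, γ, hx, hlt, hγ⟩ := main_construction
  refine ⟨Theta y, Xi '' AY y, γ, isSigma11Set_AY y, ⟨Xi x, ⟨x, hx, rfl⟩, hlt⟩, ?_⟩
  intro x₀ h₀ x₁ h₁ x₂ h₂ x₃ h₃
  exact hγ ![x₀, x₁, x₂, x₃] (by
    intro j
    fin_cases j
    · exact h₀
    · exact h₁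
    · exact h₂
    · exact h₃)
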